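import Mathlib.Data.Nat.Choose.Basic
import Mathlib.Data.Finset.Powerset
import Mathlib.Data.Nat.Log
import Mathlib.Analysis.SpecialFunctions.Log.Basic
import Mathlib.Analysis.SpecialFunctions.Log.Base
import Mathlib.Analysis.Complex.ExponentialBounds
import Mathlib.Tactic

/-!
# The upper directed `p`-domination number is at most `6 α(H) ln n`

Let `D` be an orientation of an `r`-uniform hypergraph `H` with independence number `α`.  In every
vertex set `Z` the vertices `u` that are not dominated by `Z \ {u}` form an independent set, since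
the last vertex of an edge is dominated by the others.  Averaging over the `(2α+1)`-subsets of a
set `U` shows that some `2α`-subset of `U` dominates at least half of `U`.  Iterating this
`⌊log₂ n⌋ + 1` times gives a dominating set with at most `2 α (⌊log₂ n⌋ + 1)` vertices.
-/

set_option autoImplicit false

namespace Pool.Agent.Results.MP_8fb7e7_co.LogBound

open Finset

/-- An orientation of the hypergraph with edge set `E`: every edge gets one of its `r!` linear
orderings, given as a bijection from the set `Fin r` of places onto the edge. -/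
def Orientation {V : Type} (r : ℕ) (E : Finset (Finset V)) : Type :=
  ∀ e : {e : Finset V // e ∈ E}, Fin r ≃ {v : V // v ∈ e.1}

/-- `S` is a directed `p`-dominating set of the orientation `D`: every vertex `u` outside `S` lies
in some edge the first `p` vertices of which all belong to `S`. -/
def IsDominating {V : Type} {r : ℕ} {E : Finset (Finset V)} (p : ℕ) (D : Orientation r E)
    (S : Finset V) : Prop :=
  ∀ u, u ∉ S → ∃ e : {e : Finset V // e ∈ E}, u ∈ e.1 ∧ ∀ i : Fin r, i.val < p → (D e i).1 ∈ S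

/-- The minimum size of a directed `p`-dominating set of `D`. -/
noncomputable def gamma {V : Type} {r : ℕ} {E : Finset (Finset V)} (p : ℕ)
    (D : Orientation r E) : ℕ :=
  sInf {k | ∃ S : Finset V, IsDominating p D S ∧ S.card = k}

/-- The upper directed `p`-domination number of the `r`-uniform hypergraph with edge set `E`. -/
noncomputable def Gamma {V : Type} (r p : ℕ) (E : Finset (Finset V)) : ℕ :=
  sSup {k | ∃ D : Orientation r E, gamma p D = k}

/-- The independence number: the largest size of a set of vertices that contains no edge. -/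
noncomputable def alpha {V : Type} (E : Finset (Finset V)) : ℕ :=
  sSup {k | ∃ S : Finset V, (∀ e ∈ E, ¬ e ⊆ S) ∧ S.card = k}

section

variable {V : Type} [Fintype V] [DecidableEq V] {r p : ℕ} {E : Finset (Finset V)}

/-- `u` lies in an edge the first `p` vertices of which are in `S` -/
def Dom (p : ℕ) (D : Orientation r E) (S : Finset V) (u : V) : Prop :=
  ∃ e : {e : Finset V // e ∈ E}, u ∈ e.1 ∧ ∀ i : Fin r, i.val < p → (D e i).1 ∈ S

omit [Fintype V] [DecidableEq V] in
theorem Dom.mono {D : Orientation r E} {S T : Finset V} {u : V} (h : Dom p D S u) (hST : S ⊆ T) :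
    Dom p D T u := by
  obtain ⟨e, he, h⟩ := h
  exact ⟨e, he, fun i hi => hST (h i hi)⟩

omit [DecidableEq V] in
theorem card_le_alpha (S : Finset V) (h : ∀ e ∈ E, ¬ e ⊆ S) : S.card ≤ alpha E := by
  apply le_csSup
  · refine ⟨Fintype.card V, ?_⟩
    rintro k ⟨S, _, rfl⟩
    exact Finset.card_le_univ S
  · exact ⟨S, h, rfl⟩

open Classical in
theorem undominated_le (D : Orientation r E) (hp : p + 1 ≤ r) (Z : Finset V) :
    (Z.filter (fun u => ¬ Dom p D (Z.erase u) u)).card ≤ alpha E := by
  apply card_le_alpha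
  intro e he hsub
  have hlast : r - 1 < r := by omega
  have hu := (D ⟨e, he⟩ ⟨r - 1, hlast⟩).2
  have hu' := hsub hu
  rw [Finset.mem_filter] at hu'
  apply hu'.2
  refine ⟨⟨e, he⟩, hu, fun i hi => ?_⟩
  rw [Finset.mem_erase]
  refine ⟨?_, ?_⟩
  · intro h
    have h1 : D ⟨e, he⟩ i = D ⟨e, he⟩ ⟨r - 1, hlast⟩ := Subtype.ext h
    have h2 := (D ⟨e, he⟩).injective h1
    rw [h2] at hi
    simp only at hi
    omega
  · exact (Finset.mem_filter.1 (hsub (D ⟨e, he⟩ i).2)).1

open Classical in
theorem double_count (D : Orientation r E) (U : Finset V) (N : ℕ) :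
    ∑ W ∈ U.powersetCard N, ((U \ W).filter (fun u => ¬ Dom p D W u)).card =
      ∑ Z ∈ U.powersetCard (N + 1), (Z.filter (fun u => ¬ Dom p D (Z.erase u) u)).card := by
  rw [← Finset.card_sigma, ← Finset.card_sigma]
  apply Finset.card_nbij' (i := fun x => ⟨insert x.2 x.1, x.2⟩) (j := fun x => ⟨x.1.erase x.2, x.2⟩)
  · rintro ⟨W, u⟩ h
    simp only [Finset.coe_sigma, Set.mem_sigma_iff, Finset.mem_coe, Finset.mem_powersetCard,
      Finset.mem_filter, Finset.mem_sdiff] at h ⊢
    obtain ⟨⟨h1, h2⟩, ⟨h3, h4⟩, h5⟩ := h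
    refine ⟨⟨Finset.insert_subset h3 h1, ?_⟩, Finset.mem_insert_self _ _, ?_⟩
    · rw [Finset.card_insert_of_notMem h4, h2]
    · rwa [Finset.erase_insert h4]
  · rintro ⟨Z, u⟩ h
    simp only [Finset.coe_sigma, Set.mem_sigma_iff, Finset.mem_coe, Finset.mem_powersetCard,
      Finset.mem_filter, Finset.mem_sdiff] at h ⊢
    obtain ⟨⟨h1, h2⟩, h3, h5⟩ := h
    refine ⟨⟨(Finset.erase_subset _ _).trans h1, ?_⟩, ⟨h1 h3, Finset.notMem_erase _ _⟩, h5⟩
    rw [Finset.card_erase_of_mem h3, h2]
    rfl
  · rintro ⟨W, u⟩ h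
    simp only [Finset.coe_sigma, Set.mem_sigma_iff, Finset.mem_coe, Finset.mem_powersetCard,
      Finset.mem_filter, Finset.mem_sdiff] at h
    simp only [Finset.erase_insert h.2.1.2]
  · rintro ⟨Z, u⟩ h
    simp only [Finset.coe_sigma, Set.mem_sigma_iff, Finset.mem_coe, Finset.mem_powersetCard,
      Finset.mem_filter] at h
    simp only [Finset.insert_erase h.2.1]

open Classical in
/-- Some set of at most `2α` vertices of `U` dominates at least half of `U`. -/
theorem half (D : Orientation r E) (hp : p + 1 ≤ r) (U : Finset V) :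
    ∃ W : Finset V, W.card ≤ 2 * alpha E ∧
      2 * ((U \ W).filter (fun u => ¬ Dom p D W u)).card ≤ U.card := by
  by_cases hU : U.card ≤ 2 * alpha E
  · refine ⟨U, hU, ?_⟩
    rw [Finset.sdiff_self, Finset.filter_empty, Finset.card_empty]
    omega
  · push Not at hU
    by_contra hcon
    push Not at hcon
    set N := 2 * alpha E with hN
    set m := U.card with hm
    have h1 : ∑ W ∈ U.powersetCard N, (m + 1) ≤
        ∑ W ∈ U.powersetCard N, 2 * ((U \ W).filter (fun u => ¬ Dom p D W u)).card := by
      apply Finset.sum_le_sum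
      intro W hW
      rw [Finset.mem_powersetCard] at hW
      exact hcon W hW.2.le
    rw [← Finset.mul_sum, double_count, Finset.sum_const, Finset.card_powersetCard,
      smul_eq_mul, ← hm] at h1
    have h2 : ∑ Z ∈ U.powersetCard (N + 1), (Z.filter (fun u => ¬ Dom p D (Z.erase u) u)).card ≤
        ∑ Z ∈ U.powersetCard (N + 1), alpha E :=
      Finset.sum_le_sum (fun Z _ => undominated_le D hp Z)
    rw [Finset.sum_const, Finset.card_powersetCard, smul_eq_mul, ← hm] at h2
    have h3 : m.choose (N + 1) * (N + 1) = m.choose N * (m - N) := Nat.choose_succ_right_eq m N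
    have h4 : 0 < m.choose N := Nat.choose_pos hU.le
    have h5 : m.choose N * (m + 1) ≤ m.choose (N + 1) * N := by
      calc m.choose N * (m + 1) ≤ 2 * (m.choose (N + 1) * alpha E) :=
            h1.trans (Nat.mul_le_mul_left 2 h2)
        _ = m.choose (N + 1) * N := by rw [hN]; ring
    have h6 : m.choose N * (m + 1) ≤ m.choose N * (m - N) := by
      refine h5.trans ?_
      rw [← h3]
      exact Nat.mul_le_mul_left _ (Nat.le_succ N)
    have h7 := Nat.le_of_mul_le_mul_left h6 h4
    omega

open Classical in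
theorem iterate (D : Orientation r E) (hp : p + 1 ≤ r) : ∀ (t : ℕ) (U : Finset V),
    U.card < 2 ^ t → ∃ S : Finset V, S.card ≤ 2 * alpha E * t ∧ ∀ u ∈ U, u ∉ S → Dom p D S u := by
  intro t
  induction t with
  | zero =>
    intro U hU
    have : U = ∅ := by
      rw [← Finset.card_eq_zero]
      simpa using hU
    subst this
    exact ⟨∅, by simp, by simp⟩
  | succ t ih =>
    intro U hU
    obtain ⟨W, hW, hW2⟩ := half D hp U
    obtain ⟨S, hS, hS2⟩ := ih ((U \ W).filter (fun u => ¬ Dom p D W u)) (by
      rw [pow_succ] at hU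
      omega)
    refine ⟨W ∪ S, ?_, ?_⟩
    · refine (Finset.card_union_le _ _).trans ?_
      rw [Nat.mul_succ]
      omega
    · intro u hu huS
      rw [Finset.mem_union, not_or] at huS
      by_cases hd : Dom p D W u
      · exact hd.mono Finset.subset_union_left
      · refine (hS2 u ?_ huS.2).mono Finset.subset_union_right
        rw [Finset.mem_filter, Finset.mem_sdiff]
        exact ⟨⟨hu, huS.1⟩, hd⟩

theorem gamma_le (D : Orientation r E) (hp : p + 1 ≤ r) :
    gamma p D ≤ 2 * alpha E * (Nat.log 2 (Fintype.card V) + 1) := by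
  obtain ⟨S, hS, hS2⟩ := iterate D hp (Nat.log 2 (Fintype.card V) + 1) Finset.univ (by
    rw [Finset.card_univ]
    exact Nat.lt_pow_succ_log_self (by norm_num) _)
  have h1 : gamma p D ≤ S.card := Nat.sInf_le ⟨S, fun u hu => hS2 u (Finset.mem_univ u) hu, rfl⟩
  exact h1.trans hS

end

/-- For every `r`-uniform hypergraph `H` with `n ≥ 2` vertices and all `1 ≤ p ≤ r - 1`, the upper
directed `p`-domination number is at most `2 α(H) (⌊log₂ n⌋ + 1)`, hence at most `6 α(H) ln n`. -/
theorem result (V : Type) [Fintype V] (r p : ℕ) (hp1 : 1 ≤ p) (hp : p ≤ r - 1)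
    (E : Finset (Finset V)) (hE : ∀ e ∈ E, e.card = r) (hn : 2 ≤ Fintype.card V) :
    Gamma r p E ≤ 2 * alpha E * (Nat.log 2 (Fintype.card V) + 1) ∧
    (Gamma r p E : ℝ) ≤ 6 * (alpha E : ℝ) * Real.log (Fintype.card V) := by
  classical
  have h1 : Gamma r p E ≤ 2 * alpha E * (Nat.log 2 (Fintype.card V) + 1) := by
    apply csSup_le
    · refine ⟨gamma p (fun e => (Fintype.equivFinOfCardEq (by simpa using hE e.1 e.2)).symm :
        Orientation r E), ⟨_, rfl⟩⟩
    · rintro k ⟨D, rfl⟩
      exact gamma_le D (by omega)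
  refine ⟨h1, ?_⟩
  set n := Fintype.card V with hnn
  have hlog2 : (0.6931471803 : ℝ) < Real.log 2 := Real.log_two_gt_d9
  have hn2 : (2 : ℝ) ≤ (n : ℝ) := by exact_mod_cast hn
  have hlogn : Real.log 2 ≤ Real.log n := Real.log_le_log (by norm_num) hn2
  have h2 : (Nat.log 2 n : ℝ) * Real.log 2 ≤ Real.log n := by
    have h3 : ((2 : ℝ)) ^ (Nat.log 2 n) ≤ (n : ℝ) := by
      have := Nat.pow_log_le_self 2 (show n ≠ 0 by omega)
      exact_mod_cast this
    have h4 := Real.log_le_log (by positivity) h3
    rwa [Real.log_pow] at h4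
  have h5 : (Gamma r p E : ℝ) ≤ 2 * (alpha E : ℝ) * ((Nat.log 2 n : ℝ) + 1) := by
    exact_mod_cast h1
  refine h5.trans ?_
  have hα : (0 : ℝ) ≤ (alpha E : ℝ) := Nat.cast_nonneg _
  have h6 : ((Nat.log 2 n : ℝ) + 1) ≤ 3 * Real.log n := by
    have h7 : ((Nat.log 2 n : ℝ) + 1) * Real.log 2 ≤ 2 * Real.log n := by linarith
    have h8 : 0 ≤ (Nat.log 2 n : ℝ) := Nat.cast_nonneg _
    nlinarith
  nlinarith

end Pool.Agent.Results.MP_8fb7e7_co.LogBound
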